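import Pool.Agent.W783.Perc.Stmts

set_option autoImplicit false

open MeasureTheory Set

/-!
# PC-NOEXIT
-/

namespace Pool.Agent.W439.PCN

open Pool.Agent.W783.PC

theorem sum_cover {ι α : Type*} (F : Finset ι) (S : Finset α) (g : α → ι) (w : ι → ℝ) (v : α → ℝ)
    (hv : ∀ a ∈ S, 0 ≤ v a) (hcov : ∀ c ∈ F, ∃ a ∈ S, g a = c ∧ w c ≤ v a) :
    ∑ c ∈ F, w c ≤ ∑ a ∈ S, v a := by
  classical
  choose h hS hg hw using hcov
  calc ∑ c ∈ F, w c = ∑ c ∈ F.attach, w c.1 := (Finset.sum_attach F w).symm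
    _ ≤ ∑ c ∈ F.attach, v (h c.1 c.2) := Finset.sum_le_sum (fun c _ => hw c.1 c.2)
    _ = ∑ a ∈ F.attach.image (fun c => h c.1 c.2), v a := by
        rw [Finset.sum_image]
        intro c _ d _ hcd
        apply Subtype.ext
        have hcd' : h c.1 c.2 = h d.1 d.2 := hcd
        rw [← hg c.1 c.2, ← hg d.1 d.2, hcd']
    _ ≤ ∑ a ∈ S, v a := by
        refine Finset.sum_le_sum_of_subset_of_nonneg ?_ (fun a ha _ => hv a ha)
        intro a ha
        obtain ⟨c, _, rfl⟩ := Finset.mem_image.mp ha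
        exact hS c.1 c.2

theorem step (s : ℝ) (hs : 1 < s) (k : ℝ) (hk : 1 ≤ k) :
    k ^ (-s) ≤ 2 ^ s / (s - 1) * (k ^ (1 - s) - (k + 1) ^ (1 - s)) := by
  have hk0 : 0 < k := by linarith
  have hk1 : 0 < k + 1 := by linarith
  have hs1 : 0 < s - 1 := by linarith
  have h1 : k ^ (-s) ≤ 2 ^ s * (k + 1) ^ (-s) := by
    rw [Real.rpow_neg hk0.le, Real.rpow_neg hk1.le]
    have h2 : (k + 1) ^ s ≤ 2 ^ s * k ^ s := by
      rw [← Real.mul_rpow (by norm_num) hk0.le]
      exact Real.rpow_le_rpow hk1.le (by linarith) (by linarith)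
    have h3 : 0 < k ^ s := Real.rpow_pos_of_pos hk0 s
    have h4 : 0 < (k + 1) ^ s := Real.rpow_pos_of_pos hk1 s
    rw [inv_eq_one_div, ← div_eq_mul_inv, div_le_div_iff₀ h3 h4]
    linarith
  have h2 : (s - 1) * (k + 1) ^ (-s) ≤ k ^ (1 - s) - (k + 1) ^ (1 - s) := by
    have e1 : k ^ (1 - s) = (k + 1) ^ (1 - s) *
        Real.exp ((s - 1) * (Real.log (k + 1) - Real.log k)) := by
      rw [Real.rpow_def_of_pos hk0, Real.rpow_def_of_pos hk1, ← Real.exp_add]
      congr 1
      ring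
    have e2 : (k + 1)⁻¹ ≤ Real.log (k + 1) - Real.log k := by
      have h3 := Real.log_le_sub_one_of_pos (div_pos hk0 hk1)
      rw [Real.log_div hk0.ne' hk1.ne'] at h3
      have h4 : k / (k + 1) - 1 = -(k + 1)⁻¹ := by field_simp; ring
      linarith
    have e3 : 1 + (s - 1) * (k + 1)⁻¹ ≤
        Real.exp ((s - 1) * (Real.log (k + 1) - Real.log k)) := by
      have h5 := Real.add_one_le_exp ((s - 1) * (Real.log (k + 1) - Real.log k))
      have h6 : (s - 1) * (k + 1)⁻¹ ≤ (s - 1) * (Real.log (k + 1) - Real.log k) :=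
        mul_le_mul_of_nonneg_left e2 hs1.le
      linarith
    have e4 : 0 < (k + 1) ^ (1 - s) := Real.rpow_pos_of_pos hk1 _
    have e5 : (k + 1) ^ (-s) = (k + 1) ^ (1 - s) * (k + 1)⁻¹ := by
      rw [← Real.rpow_neg_one, ← Real.rpow_add hk1]
      congr 1
      ring
    rw [e1, e5]
    have e6 := mul_le_mul_of_nonneg_left e3 e4.le
    nlinarith
  have h3 : 0 < (2 : ℝ) ^ s := Real.rpow_pos_of_pos (by norm_num) s
  calc k ^ (-s) ≤ 2 ^ s * (k + 1) ^ (-s) := h1
    _ = 2 ^ s / (s - 1) * ((s - 1) * (k + 1) ^ (-s)) := by field_simp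
    _ ≤ _ := mul_le_mul_of_nonneg_left h2 (by positivity)

theorem tail0 (s : ℝ) (hs : 1 < s) (t : ℕ) (ht : 1 ≤ t) (L : ℕ) (hL : t ≤ L) :
    ∑ k ∈ Finset.Ico t L, (k : ℝ) ^ (-s) ≤
      2 ^ s / (s - 1) * ((t : ℝ) ^ (1 - s) - (L : ℝ) ^ (1 - s)) := by
  induction L, hL using Nat.le_induction with
  | base => simp
  | succ L hL ih =>
    rw [Finset.sum_Ico_succ_top hL]
    have h1 := step s hs (L : ℝ) (by exact_mod_cast ht.trans hL)
    push_cast
    nlinarith

theorem tail (s : ℝ) (hs : 1 < s) (t L : ℕ) (ht : 1 ≤ t) :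
    ∑ k ∈ Finset.Ico t L, (k : ℝ) ^ (-s) ≤ 2 ^ s / (s - 1) * (t : ℝ) ^ (1 - s) := by
  have hs1 : 0 < s - 1 := by linarith
  have h3 : 0 < (2 : ℝ) ^ s := Real.rpow_pos_of_pos (by norm_num) s
  rcases le_total t L with h | h
  · refine (tail0 s hs t ht L h).trans ?_
    refine mul_le_mul_of_nonneg_left ?_ (by positivity)
    have : 0 ≤ (L : ℝ) ^ (1 - s) := Real.rpow_nonneg (Nat.cast_nonneg L) _
    linarith
  · rw [Finset.Ico_eq_empty_of_le h, Finset.sum_empty]
    have : 0 ≤ (t : ℝ) ^ (1 - s) := Real.rpow_nonneg (Nat.cast_nonneg t) _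
    positivity

/-- The classification of nearest neighbours. -/
theorem NN_cases {n : ℕ} {x y : V n} (h : NN x y) :
    (x.2 = y.2 ∧ |x.1 - y.1| = 1) ∨
      (x.1 = y.1 ∧ ∃ i, |x.2 i - y.2 i| = 1 ∧ ∀ j, j ≠ i → x.2 j = y.2 j) := by
  unfold NN at h
  have hnn : ∀ i ∈ (Finset.univ : Finset (Fin n)), 0 ≤ |x.2 i - y.2 i| := fun i _ => abs_nonneg _
  by_cases h0 : |x.1 - y.1| = 0
  · right
    rw [h0, zero_add] at h
    refine ⟨by rw [abs_eq_zero] at h0; omega, ?_⟩
    have hex : ∃ i, |x.2 i - y.2 i| ≠ 0 := by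
      by_contra hcon
      push Not at hcon
      rw [Finset.sum_eq_zero (fun i _ => hcon i)] at h
      omega
    obtain ⟨i, hi⟩ := hex
    have h2 := Finset.add_sum_erase Finset.univ (fun i => |x.2 i - y.2 i|) (Finset.mem_univ i)
    have h3 : 0 ≤ ∑ j ∈ Finset.univ.erase i, |x.2 j - y.2 j| :=
      Finset.sum_nonneg fun j _ => abs_nonneg _
    have h4 : 0 < |x.2 i - y.2 i| := lt_of_le_of_ne (abs_nonneg _) (Ne.symm hi)
    have h5 : |x.2 i - y.2 i| = 1 := by
      omega
    have h6 : ∑ j ∈ Finset.univ.erase i, |x.2 j - y.2 j| = 0 := by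
      omega
    refine ⟨i, h5, fun j hj => ?_⟩
    have h7 := (Finset.sum_eq_zero_iff_of_nonneg (fun j _ => abs_nonneg _)).mp h6 j
      (Finset.mem_erase.mpr ⟨hj, Finset.mem_univ j⟩)
    rw [abs_eq_zero] at h7
    omega
  · left
    have h1 : 0 < |x.1 - y.1| := lt_of_le_of_ne (abs_nonneg _) (Ne.symm h0)
    have h3 : 0 ≤ ∑ j, |x.2 j - y.2 j| := Finset.sum_nonneg fun j _ => abs_nonneg _
    have h4 : ∑ j, |x.2 j - y.2 j| = 0 := by omega
    refine ⟨?_, by omega⟩
    funext j
    have h7 := (Finset.sum_eq_zero_iff_of_nonneg hnn).mp h4 j (Finset.mem_univ j)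
    rw [abs_eq_zero] at h7
    omega

theorem NN_symm {n : ℕ} {x y : V n} (h : NN x y) : NN y x := by
  unfold NN at h ⊢
  rw [abs_sub_comm]
  rw [← h]
  congr 1
  exact Finset.sum_congr rfl fun i _ => abs_sub_comm _ _

theorem isNN_mk {n : ℕ} {x y : V n} (h : isNN s(x, y)) : NN x y := by
  obtain ⟨x', y', he, hn⟩ := h
  rw [Sym2.eq_iff] at he
  rcases he with ⟨rfl, rfl⟩ | ⟨rfl, rfl⟩
  · exact hn
  · exact NN_symm hn

theorem isLg_mk {n m : ℕ} {x y : V n} (h : isLg m s(x, y)) : Lg m x y := by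
  obtain ⟨x', y', he, hn⟩ := h
  rw [Sym2.eq_iff] at he
  rcases he with ⟨rfl, rfl⟩ | ⟨rfl, rfl⟩
  · exact hn
  · obtain ⟨h1, h2, h3⟩ := hn
    refine ⟨h1.symm, ?_, ?_⟩
    · rw [← h1]; exact h2
    · omega

/-- The other end of a bond, in the first direction. -/
def yf {n : ℕ} (x : V n) (k : ℕ) (b : Bool) : V n := (x.1 + (if b then (k : ℤ) else -(k : ℤ)), x.2)

/-- The other end of a bond, in a transverse direction. -/
def yt {n : ℕ} (x : V n) (i : Fin n) (b : Bool) : V n :=
  (x.1, Function.update x.2 i (x.2 i + (if b then 1 else -1)))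

abbrev Code (n : ℕ) : Type := (Fin n × Bool) ⊕ (Bool ⊕ (ℕ × Bool))

def gc {n : ℕ} (g : V n → V n → Ix n) : V n × Code n → Ix n
  | (x, Sum.inl (i, b)) => g x (yt x i b)
  | (x, Sum.inr (Sum.inl b)) => g x (yf x 1 b)
  | (x, Sum.inr (Sum.inr (k, b))) => Sum.inr s(x, yf x k b)

noncomputable def vc {n : ℕ} (c1 β s : ℝ) (N M : ℕ) : V n × Code n → ℝ
  | (x, Sum.inl (i, _)) => c1 * (if (x.2 i).natAbs = M then (1 : ℝ) else 0)
  | (x, Sum.inr (Sum.inl _)) => c1 * ((N : ℝ) - |(x.1 : ℝ)| + 1) ^ (1 - s)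
  | (x, Sum.inr (Sum.inr (k, _))) => if N + 1 - x.1.natAbs ≤ k then β * (k : ℝ) ^ (-s) else 0

def codes (n L : ℕ) : Finset (Code n) :=
  (Finset.univ : Finset (Fin n × Bool)).disjSum
    ((Finset.univ : Finset Bool).disjSum (Finset.range L ×ˢ (Finset.univ : Finset Bool)))

theorem sum_codes {n : ℕ} (c1 β s : ℝ) (hs : 1 < s) (hc1 : 0 ≤ c1) (hβ : 0 ≤ β) (N M L : ℕ)
    (x : V n) (hx0 : x ∈ CB N M) :
    ∑ c ∈ codes n L, vc c1 β s N M (x, c) ≤
      (2 * c1 + 2 * β * (2 ^ s / (s - 1)) + 1) * hx s N M x := by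
  have hs1 : 0 < s - 1 := by linarith
  have h3 : 0 < (2 : ℝ) ^ s := Real.rpow_pos_of_pos (by norm_num) s
  obtain ⟨hxN, hxM⟩ := hx0
  have hxN' : x.1.natAbs ≤ N := by
    rw [Int.abs_eq_natAbs] at hxN
    exact_mod_cast hxN
  have habs : |(x.1 : ℝ)| = ((x.1.natAbs : ℕ) : ℝ) := by
    rw [Nat.cast_natAbs, Int.cast_abs]
  have ht : (((N + 1 - x.1.natAbs : ℕ)) : ℝ) = (N : ℝ) - |(x.1 : ℝ)| + 1 := by
    rw [habs, Nat.cast_sub (by omega)]
    push_cast
    ring
  have hA : ∑ c : Fin n × Bool, vc c1 β s N M (x, (Sum.inl c : Code n)) =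
      2 * c1 * ∑ i, (if (x.2 i).natAbs = M then (1 : ℝ) else 0) := by
    rw [Fintype.sum_prod_type]
    simp only [vc, Fintype.sum_bool]
    rw [Finset.mul_sum]
    refine Finset.sum_congr rfl fun i _ => ?_
    ring
  have hB : ∑ b : Bool, vc c1 β s N M (x, (Sum.inr (Sum.inl b) : Code n)) =
      2 * c1 * ((N : ℝ) - |(x.1 : ℝ)| + 1) ^ (1 - s) := by
    simp only [vc, Fintype.sum_bool]
    ring
  have hC : ∑ c ∈ Finset.range L ×ˢ (Finset.univ : Finset Bool),
      vc c1 β s N M (x, (Sum.inr (Sum.inr c) : Code n)) ≤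
      2 * β * (2 ^ s / (s - 1)) * ((N : ℝ) - |(x.1 : ℝ)| + 1) ^ (1 - s) := by
    rw [Finset.sum_product]
    simp only [vc, Fintype.sum_bool]
    have e1 : ∀ k ∈ Finset.range L, ((if N + 1 - x.1.natAbs ≤ k then β * (k : ℝ) ^ (-s) else 0) +
        (if N + 1 - x.1.natAbs ≤ k then β * (k : ℝ) ^ (-s) else 0)) =
        2 * β * (if N + 1 - x.1.natAbs ≤ k then (k : ℝ) ^ (-s) else 0) := by
      intro k _
      split_ifs <;> ring
    rw [Finset.sum_congr rfl e1, ← Finset.mul_sum, ← Finset.sum_filter]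
    have e2 : (Finset.range L).filter (fun k => N + 1 - x.1.natAbs ≤ k) =
        Finset.Ico (N + 1 - x.1.natAbs) L := by
      ext k
      simp only [Finset.mem_filter, Finset.mem_range, Finset.mem_Ico]
      omega
    rw [e2, mul_assoc (2 * β), ← ht]
    refine mul_le_mul_of_nonneg_left ?_ (by positivity)
    exact tail s hs _ L (by omega)
  have hsum : ∑ c ∈ codes n L, vc c1 β s N M (x, c) =
      ∑ c : Fin n × Bool, vc c1 β s N M (x, (Sum.inl c : Code n)) +
      (∑ b : Bool, vc c1 β s N M (x, (Sum.inr (Sum.inl b) : Code n)) +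
      ∑ c ∈ Finset.range L ×ˢ (Finset.univ : Finset Bool),
        vc c1 β s N M (x, (Sum.inr (Sum.inr c) : Code n))) := by
    rw [codes, Finset.sum_disjSum, Finset.sum_disjSum]
  rw [hsum, hA, hB]
  have hS : 0 ≤ ∑ i, (if (x.2 i).natAbs = M then (1 : ℝ) else 0) :=
    Finset.sum_nonneg fun i _ => by split_ifs <;> norm_num
  have hT : 0 ≤ ((N : ℝ) - |(x.1 : ℝ)| + 1) ^ (1 - s) := by
    rw [← ht]
    exact Real.rpow_nonneg (Nat.cast_nonneg _) _
  set S := ∑ i, (if (x.2 i).natAbs = M then (1 : ℝ) else 0) with hSdef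
  set T := ((N : ℝ) - |(x.1 : ℝ)| + 1) ^ (1 - s) with hTdef
  have hhx : hx s N M x = S + T := rfl
  rw [hhx]
  set D := 2 ^ s / (s - 1) with hD
  have hD0 : 0 ≤ D := by positivity
  have hp1 : 0 ≤ β * D * S := by positivity
  have hp2 : 0 ≤ c1 * T := by positivity
  nlinarith

theorem core {n m : ℕ} (c1 β s : ℝ) (hs : 1 < s) (hc1 : 0 ≤ c1) (hβ : 0 ≤ β)
    (g : V n → V n → Ix n) (w : Ix n → ℝ) (N M : ℕ) (K : Finset (V n))
    (hK : ∀ x ∈ K, x ∈ CB N M) (F : Finset (Ix n))
    (hcov : ∀ c ∈ F, ∃ x ∈ K, ∃ y, y ∉ CB N M ∧ ((NN x y ∧ c = g x y ∧ w c ≤ c1) ∨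
      (Lg m x y ∧ c = Sum.inr s(x, y) ∧ w c ≤ β * ((x.1 - y.1).natAbs : ℝ) ^ (-s)))) :
    ∑ c ∈ F, w c ≤ (2 * c1 + 2 * β * (2 ^ s / (s - 1)) + 1) * ∑ x ∈ K, hx s N M x := by
  classical
  set lenI : Ix n → ℕ := fun c => Sum.elim (fun _ => 0) len c with hlenI
  set L := F.sup lenI + 1 with hL
  have hnn : ∀ a ∈ K ×ˢ codes n L, 0 ≤ vc c1 β s N M a := by
    rintro ⟨x, c⟩ ha
    rw [Finset.mem_product] at ha
    obtain ⟨hxN, hxM⟩ := hK x ha.1
    have hxN' : x.1.natAbs ≤ N := by
      rw [Int.abs_eq_natAbs] at hxN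
      exact_mod_cast hxN
    rcases c with ⟨i, b⟩ | b | ⟨k, b⟩
    · simp only [vc]
      split_ifs <;> simp [hc1]
    · simp only [vc]
      have habs : |(x.1 : ℝ)| = ((x.1.natAbs : ℕ) : ℝ) := by
        rw [Nat.cast_natAbs, Int.cast_abs]
      have : (0 : ℝ) ≤ (N : ℝ) - |(x.1 : ℝ)| + 1 := by
        rw [habs]
        have : ((x.1.natAbs : ℕ) : ℝ) ≤ N := by exact_mod_cast hxN'
        linarith
      exact mul_nonneg hc1 (Real.rpow_nonneg this _)
    · simp only [vc]
      split_ifs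
      · exact mul_nonneg hβ (Real.rpow_nonneg (Nat.cast_nonneg k) _)
      · exact le_rfl
  have hcv : ∀ c ∈ F, ∃ a ∈ K ×ˢ codes n L, gc g a = c ∧ w c ≤ vc c1 β s N M a := by
    intro c hc
    obtain ⟨x, hxK, y, hy, h | h⟩ := hcov c hc
    · obtain ⟨hNN, rfl, hw⟩ := h
      obtain ⟨hxN, hxM⟩ := hK x hxK
      rcases NN_cases hNN with ⟨h2, h1⟩ | ⟨h1, i, hi, hj⟩
      · -- first direction
        have hyy : ∃ b : Bool, y = yf x 1 b := by
          rcases abs_eq (by norm_num : (0 : ℤ) ≤ 1) |>.mp h1 with h | h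
          · refine ⟨false, ?_⟩
            apply Prod.ext
            · simp only [yf]; simp; omega
            · exact h2.symm
          · refine ⟨true, ?_⟩
            apply Prod.ext
            · simp only [yf]; simp; omega
            · exact h2.symm
        obtain ⟨b, rfl⟩ := hyy
        refine ⟨(x, Sum.inr (Sum.inl b)), ?_, rfl, ?_⟩
        · rw [Finset.mem_product]
          refine ⟨hxK, ?_⟩
          simp [codes]
        · have hout : ¬ |(yf x 1 b).1| ≤ N := by
            intro hcon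
            exact hy ⟨hcon, fun i => hxM i⟩
          have hxe : x.1.natAbs = N := by
            have h5 : |x.1 - (yf x 1 b).1| = 1 := h1
            have h6 : ¬ |(yf x 1 b).1| ≤ N := hout
            rw [Int.abs_eq_natAbs] at h5 h6 hxN
            omega
          have habs : |(x.1 : ℝ)| = ((x.1.natAbs : ℕ) : ℝ) := by
            rw [Nat.cast_natAbs, Int.cast_abs]
          simp only [vc]
          rw [habs, hxe]
          simpa using hw
      · have hyy : ∃ b : Bool, y = yt x i b := by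
          rcases abs_eq (by norm_num : (0 : ℤ) ≤ 1) |>.mp hi with h | h
          · refine ⟨false, ?_⟩
            apply Prod.ext
            · exact h1.symm
            · funext j
              by_cases hji : j = i
              · subst hji
                simp [yt]
                omega
              · simp only [yt, Function.update_of_ne hji]
                exact (hj j hji).symm
          · refine ⟨true, ?_⟩
            apply Prod.ext
            · exact h1.symm
            · funext j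
              by_cases hji : j = i
              · subst hji
                simp [yt]
                omega
              · simp only [yt, Function.update_of_ne hji]
                exact (hj j hji).symm
        obtain ⟨b, rfl⟩ := hyy
        refine ⟨(x, Sum.inl (i, b)), ?_, rfl, ?_⟩
        · rw [Finset.mem_product]
          refine ⟨hxK, ?_⟩
          simp [codes]
        · have hxe : (x.2 i).natAbs = M := by
            have hout : ¬ |(yt x i b).2 i| ≤ M := by
              intro hcon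
              apply hy
              refine ⟨hxN, fun j => ?_⟩
              by_cases hji : j = i
              · subst hji; exact hcon
              · have : (yt x i b).2 j = x.2 j := by
                  simp only [yt, Function.update_of_ne hji]
                rw [this]
                exact hxM j
            have h5 := hxM i
            have h6 : |x.2 i - (yt x i b).2 i| = 1 := hi
            rw [Int.abs_eq_natAbs] at h5 h6 hout
            omega
          simp only [vc]
          rw [if_pos hxe]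
          simpa using hw
    · obtain ⟨hLg, rfl, hw⟩ := h
      obtain ⟨hxN, hxM⟩ := hK x hxK
      obtain ⟨h2, -, h3⟩ := hLg
      have hyy : ∃ b : Bool, y = yf x (x.1 - y.1).natAbs b := by
        rcases le_total y.1 x.1 with h | h
        · refine ⟨false, ?_⟩
          apply Prod.ext
          · simp only [yf, Bool.false_eq_true, if_false]; omega
          · exact h2.symm
        · refine ⟨true, ?_⟩
          apply Prod.ext
          · simp only [yf, if_true]; omega
          · exact h2.symm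
      obtain ⟨b, hyb⟩ := hyy
      refine ⟨(x, Sum.inr (Sum.inr ((x.1 - y.1).natAbs, b))), ?_, ?_, ?_⟩
      · rw [Finset.mem_product]
        refine ⟨hxK, ?_⟩
        have hle : lenI (Sum.inr s(x, y)) ≤ F.sup lenI := Finset.le_sup (f := lenI) hc
        have hle2 : lenI (Sum.inr s(x, y)) = (x.1 - y.1).natAbs := by
          simp [hlenI, len]
        have hlt : (x.1 - y.1).natAbs < L := by
          rw [hL]; omega
        simp [codes, hlt]
      · show Sum.inr s(x, yf x (x.1 - y.1).natAbs b) = Sum.inr s(x, y)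
        rw [← hyb]
      · have hout : ¬ |y.1| ≤ N := by
          intro hcon
          apply hy
          refine ⟨hcon, fun i => ?_⟩
          rw [← h2]
          exact hxM i
        simp only [vc]
        have hle3 : N + 1 - x.1.natAbs ≤ (x.1 - y.1).natAbs := by
          rw [Int.abs_eq_natAbs] at hout
          omega
        rw [if_pos hle3]
        exact hw
  refine (sum_cover F (K ×ˢ codes n L) (gc g) w (vc c1 β s N M) hnn hcv).trans ?_
  rw [Finset.sum_product, Finset.mul_sum]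
  exact Finset.sum_le_sum fun x hxK => sum_codes c1 β s hs hc1 hβ N M L x (hK x hxK)

open scoped Classical in
theorem s_noexit (hclosed : S_closed) : S_noexit := by
  intro n m a p β s hs hap
  have ha0 : (0 : ℝ) ≤ a := a.2.1
  have hp0 : (0 : ℝ) ≤ p := p.2.1
  have ha1 : (a : ℝ) ≤ 1 := a.2.2
  have hp1 : (p : ℝ) ≤ 1 := p.2.2
  -- the weights
  set w : Ix n → ℝ := fun c => Sum.elim (fun _ => -Real.log (1 - a))
    (fun e => if isNN e then -Real.log (1 - p) else (β : ℝ) * (len e : ℝ) ^ (-s)) c with hw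
  set r : Ix n → unitInterval := prob a p β s m with hr
  -- the coordinate blocking a nearest-neighbour bond
  obtain ⟨g, c1, hc1, hg1, hg2⟩ : ∃ (g : V n → V n → Ix n) (c1 : ℝ), 0 ≤ c1 ∧
      (∀ x y, NN x y → w (g x y) ≤ c1 ∧ Real.exp (-(w (g x y))) ≤ 1 - (r (g x y) : ℝ)) ∧
      (∀ (ω : Cfg n) (x y : V n), ω (g x y) = false →
        ¬ (ω (Sum.inl y) = true ∧ ω (Sum.inr s(x, y)) = true)) := by
    by_cases hp : (p : ℝ) < 1
    · refine ⟨fun x y => Sum.inr s(x, y), -Real.log (1 - p), ?_, ?_, ?_⟩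
      · have := Real.log_nonpos (by linarith : (0 : ℝ) ≤ 1 - p) (by linarith)
        linarith
      · intro x y hxy
        have hn : isNN s(x, y) := ⟨x, y, rfl, hxy⟩
        have hw1 : w (Sum.inr s(x, y)) = -Real.log (1 - p) := by
          simp only [hw, Sum.elim_inr, if_pos hn]
        have hr1 : r (Sum.inr s(x, y)) = p := by
          simp only [hr, prob, if_pos hn]
        rw [hw1, hr1, neg_neg, Real.exp_log (by linarith)]
        exact ⟨le_rfl, le_rfl⟩
      · intro ω x y h hcon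
        simp only at h
        rw [h] at hcon
        simp at hcon
    · have hpe : (p : ℝ) = 1 := le_antisymm hp1 (not_lt.mp hp)
      have ha : (a : ℝ) < 1 := by rwa [hpe, mul_one] at hap
      refine ⟨fun _ y => Sum.inl y, -Real.log (1 - a), ?_, ?_, ?_⟩
      · have := Real.log_nonpos (by linarith : (0 : ℝ) ≤ 1 - a) (by linarith)
        linarith
      · intro x y _
        have hw1 : w (Sum.inl y) = -Real.log (1 - a) := by
          simp only [hw, Sum.elim_inl]
        have hr1 : r (Sum.inl y) = a := by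
          simp only [hr, prob]
        rw [hw1, hr1, neg_neg, Real.exp_log (by linarith)]
        exact ⟨le_rfl, le_rfl⟩
      · intro ω x y h hcon
        simp only at h
        rw [h] at hcon
        simp at hcon
  have hs1 : 0 < s - 1 := by linarith
  have h2s : 0 < (2 : ℝ) ^ s := Real.rpow_pos_of_pos (by norm_num) s
  have hβ : 0 ≤ (β : ℝ) := β.2
  refine ⟨2 * c1 + 2 * β * (2 ^ s / (s - 1)) + 1, by positivity, ?_⟩
  intro N M K hK
  set T : Set (Ix n) := {c | ∃ x ∈ K, ∃ y, y ∉ CB N M ∧ ((NN x y ∧ c = g x y) ∨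
    (¬ isNN s(x, y) ∧ isLg m s(x, y) ∧ c = Sum.inr s(x, y)))} with hT
  have hcount : T.Countable := by
    have : Countable (Sym2 (V n)) := by
      unfold Sym2
      infer_instance
    exact Set.to_countable T
  have hlong : ∀ x y : V n, ¬ isNN s(x, y) → w (Sum.inr s(x, y)) =
      β * ((x.1 - y.1).natAbs : ℝ) ^ (-s) := by
    intro x y hn
    simp only [hw, Sum.elim_inr, if_neg hn]
    rfl
  have hexp : ∀ c ∈ T, Real.exp (-(w c)) ≤ 1 - (r c : ℝ) := by
    rintro c ⟨x, hxK, y, hy, ⟨hNN, rfl⟩ | ⟨hn, hlg, rfl⟩⟩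
    · exact (hg1 x y hNN).2
    · rw [hlong x y hn]
      have hr1 : (r (Sum.inr s(x, y)) : ℝ) =
          1 - Real.exp (-((β : ℝ) * ((x.1 - y.1).natAbs : ℝ) ^ (-s))) := by
        simp only [hr, prob, if_neg hn, if_pos hlg]
        rfl
      rw [hr1]
      linarith
  have hsum : ∀ F : Finset (Ix n), (F : Set (Ix n)) ⊆ T → ∑ c ∈ F, w c ≤
      (2 * c1 + 2 * β * (2 ^ s / (s - 1)) + 1) * ∑ x ∈ K, hx s N M x := by
    intro F hF
    refine core (m := m) c1 β s hs hc1 hβ g w N M K hK F ?_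
    intro c hc
    obtain ⟨x, hxK, y, hy, ⟨hNN, rfl⟩ | ⟨hn, hlg, rfl⟩⟩ := hF hc
    · exact ⟨x, hxK, y, hy, Or.inl ⟨hNN, rfl, (hg1 x y hNN).1⟩⟩
    · exact ⟨x, hxK, y, hy, Or.inr ⟨isLg_mk hlg, rfl, (hlong x y hn).le⟩⟩
  refine (hclosed (Ix n) r T hcount w _ hexp hsum).trans ?_
  refine measureReal_mono ?_ (measure_ne_top _ _)
  intro ω hω x hxK y hy hxy
  by_cases hn : isNN s(x, y)
  · exact hg2 ω x y (hω _ ⟨x, hxK, y, hy, Or.inl ⟨isNN_mk hn, rfl⟩⟩)
  · rcases hxy with h | h
    · exact absurd h hn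
    · have := hω (Sum.inr s(x, y)) ⟨x, hxK, y, hy, Or.inr ⟨hn, h, rfl⟩⟩
      rw [this]
      simp

end Pool.Agent.W439.PCN
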